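import Pool.Agent.H33.HH.TC
import Pool.Agent.H63.HK.DS

/-!
# Board hha_modules: the coefficients of the convolution
-/

set_option autoImplicit false

open NumberField Complex Filter Topology MeasureTheory
open scoped ContDiff nonZeroDivisors

namespace Pool.Agent.H61.HH

open Pool.Agent.H33.HH Pool.Agent.H28.RC Pool.Agent.H37.CV

theorem sum_uv {α : Type} [DecidableEq α] (u v : α → ℝ) (X : Finset α) :
    ∑ A ∈ X.powerset, ∑ B ∈ (X \ A).powerset, (∏ p ∈ A, u p) * ∏ p ∈ B, v p =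
      ∏ p ∈ X, (u p + (1 + v p)) := by
  rw [Finset.prod_add]
  refine Finset.sum_congr rfl fun A _ => ?_
  rw [Finset.prod_one_add, Finset.mul_sum]

theorem nS_rpow {α : Type} (N : α → ℝ) (hN : ∀ p, 2 ≤ N p) (A B : Finset α) :
    (nS N A * nS N B ^ 2) ^ (1 / 4 : ℝ) =
      (∏ p ∈ A, N p ^ (1 / 4 : ℝ)) * ∏ p ∈ B, N p ^ (1 / 2 : ℝ) := by
  have h0 : ∀ p, 0 ≤ N p := fun p => by linarith [hN p]
  have hA : 0 ≤ nS N A := Finset.prod_nonneg fun p _ => h0 p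
  have hB : 0 ≤ nS N B := Finset.prod_nonneg fun p _ => h0 p
  rw [Real.mul_rpow hA (by positivity), ← Real.rpow_natCast, ← Real.rpow_mul hB]
  have e : (((2 : ℕ) : ℝ) * (1 / 4 : ℝ)) = 1 / 2 := by norm_num
  rw [e, Real.finsetProd_rpow A N (fun p _ => h0 p), Real.finsetProd_rpow B N (fun p _ => h0 p)]
  rfl

theorem term_le (n : ℝ) (hn : 2 ≤ n) :
    (n * (n - 1))⁻¹ * n ^ (1 / 4 : ℝ) + (n * (n - 1))⁻¹ * n ^ (1 / 2 : ℝ) ≤
      4 * n ^ (-(3 / 2) : ℝ) := by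
  have hn0 : 0 < n := by linarith
  have h1 : n ^ (1 / 4 : ℝ) ≤ n ^ (1 / 2 : ℝ) :=
    Real.rpow_le_rpow_of_exponent_le (by linarith) (by norm_num)
  have h2 : (n * (n - 1))⁻¹ ≤ (n * (n / 2))⁻¹ := by
    apply inv_anti₀ (by positivity)
    exact mul_le_mul_of_nonneg_left (by linarith) hn0.le
  have h3 : (n * (n / 2))⁻¹ * n ^ (1 / 2 : ℝ) = 2 * n ^ (-(3 / 2) : ℝ) := by
    have e1 : n ^ (-(3 / 2) : ℝ) = n ^ (1 / 2 : ℝ) * n ^ (-2 : ℝ) := by
      rw [← Real.rpow_add hn0]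
      norm_num
    have e2 : n ^ (-2 : ℝ) = (n * n)⁻¹ := by
      rw [Real.rpow_neg hn0.le]
      have : n ^ (2 : ℝ) = n * n := by
        rw [show (2 : ℝ) = ((2 : ℕ) : ℝ) by norm_num, Real.rpow_natCast]
        ring
      rw [this]
    rw [e1, e2]
    field_simp
  have h4 : 0 ≤ n ^ (1 / 2 : ℝ) := Real.rpow_nonneg hn0.le _
  have h5 : 0 ≤ (n * (n - 1))⁻¹ := inv_nonneg.2 (mul_nonneg hn0.le (by linarith))
  have h6 : (n * (n - 1))⁻¹ * n ^ (1 / 4 : ℝ) ≤ (n * (n - 1))⁻¹ * n ^ (1 / 2 : ℝ) :=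
    mul_le_mul_of_nonneg_left h1 h5
  have h7 : (n * (n - 1))⁻¹ * n ^ (1 / 2 : ℝ) ≤ (n * (n / 2))⁻¹ * n ^ (1 / 2 : ℝ) :=
    mul_le_mul_of_nonneg_right h2 h4
  linarith

section
variable {K : Type} [Field K] [NumberField K]

theorem np_two (p : PrI K) : 2 ≤ np p := by
  have h1 : Ideal.absNorm p.1 ≠ 0 := by
    rw [Ne, Ideal.absNorm_eq_zero_iff]
    exact p.2.2
  have h2 : Ideal.absNorm p.1 ≠ 1 := by
    rw [Ne, Ideal.absNorm_eq_one_iff]
    exact p.2.1.ne_top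
  have h3 : 2 ≤ Ideal.absNorm p.1 := by omega
  show (2 : ℝ) ≤ (Ideal.absNorm p.1 : ℝ)
  exact_mod_cast h3

theorem gw_eq (A B : Finset (PrI K)) : gw A B =
    (∏ p ∈ A, (np p * (np p - 1))⁻¹) * ∏ p ∈ B, -(np p * (np p - 1))⁻¹ := by
  have h1 : ∏ p ∈ B, -(np p * (np p - 1))⁻¹ =
      (-1) ^ B.card * ∏ p ∈ B, (np p * (np p - 1))⁻¹ := by
    rw [← Finset.prod_const, ← Finset.prod_mul_distrib]
    exact Finset.prod_congr rfl fun p _ => by ring
  rw [h1]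
  unfold gw fS nS
  simp only [mul_inv, Finset.prod_mul_distrib, Finset.prod_inv_distrib]
  rw [div_eq_mul_inv, mul_inv, mul_inv, mul_inv]
  ring

theorem abs_gw (A B : Finset (PrI K)) : |gw A B| * (nS np A * nS np B ^ 2) ^ (1 / 4 : ℝ) =
    (∏ p ∈ A, (np p * (np p - 1))⁻¹ * np p ^ (1 / 4 : ℝ)) *
      ∏ p ∈ B, (np p * (np p - 1))⁻¹ * np p ^ (1 / 2 : ℝ) := by
  have h0 : ∀ p : PrI K, |(np p * (np p - 1))⁻¹| = (np p * (np p - 1))⁻¹ := fun p =>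
    abs_of_nonneg (inv_nonneg.2 (mul_nonneg (by linarith [np_two p]) (by linarith [np_two p])))
  rw [nS_rpow np np_two, gw_eq, abs_mul, Finset.abs_prod, Finset.abs_prod]
  simp only [abs_neg, h0, Finset.prod_mul_distrib]
  ring

theorem np_summable : Summable (fun p : PrI K => np p ^ (-(3 / 2) : ℝ)) := by
  have h1 := (Pool.Agent.H63.HK.ds K (3 / 2) (by norm_num)).1
  have hi : Function.Injective (fun p : PrI K => (⟨p.1, p.2.2⟩ : {I : Ideal (𝓞 K) // I ≠ ⊥})) := by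
    intro p q h
    exact Subtype.ext (congrArg (fun x : {I : Ideal (𝓞 K) // I ≠ ⊥} => x.1) h)
  refine (h1.comp_injective hi).congr fun p => ?_
  have h2 : Ideal.absNorm p.1 ≠ 0 := by
    rw [Ne, Ideal.absNorm_eq_zero_iff]
    exact p.2.2
  show ‖(Ideal.absNorm p.1 : ℂ) ^ (-(3 / 2 : ℂ))‖ = (Ideal.absNorm p.1 : ℝ) ^ (-(3 / 2) : ℝ)
  rw [Complex.norm_natCast_cpow_of_pos (Nat.pos_of_ne_zero h2)]
  norm_num

end

theorem pf_GLB : T_GLB := by
  intro K _ _ _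
  refine ⟨Real.exp (4 * ∑' p : PrI K, np p ^ (-(3 / 2) : ℝ)), (Real.exp_pos _).le, fun X => ⟨?_, ?_⟩⟩
  · have h1 : ∀ A B : Finset (PrI K), gw A B =
        (∏ p ∈ A, (np p * (np p - 1))⁻¹) * ∏ p ∈ B, -(np p * (np p - 1))⁻¹ := gw_eq
    simp only [h1]
    rw [sum_uv]
    exact Finset.prod_eq_one fun p _ => by ring
  · have h1 : ∀ A B : Finset (PrI K), |gw A B| * (nS np A * nS np B ^ 2) ^ (1 / 4 : ℝ) =
        (∏ p ∈ A, (np p * (np p - 1))⁻¹ * np p ^ (1 / 4 : ℝ)) *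
          ∏ p ∈ B, (np p * (np p - 1))⁻¹ * np p ^ (1 / 2 : ℝ) := abs_gw
    simp only [h1]
    rw [sum_uv]
    have h2 : ∀ p : PrI K, 0 ≤ (np p * (np p - 1))⁻¹ := fun p =>
      inv_nonneg.2 (mul_nonneg (by linarith [np_two p]) (by linarith [np_two p]))
    have h3 : ∀ (p : PrI K) (t : ℝ), 0 ≤ np p ^ t := fun p t =>
      Real.rpow_nonneg (by linarith [np_two p]) _
    have h4 : ∀ p ∈ X, (np p * (np p - 1))⁻¹ * np p ^ (1 / 4 : ℝ) +
        (1 + (np p * (np p - 1))⁻¹ * np p ^ (1 / 2 : ℝ)) ≤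
          Real.exp (4 * np p ^ (-(3 / 2) : ℝ)) := by
      intro p _
      have h5 := term_le (np p) (np_two p)
      have h6 := Real.add_one_le_exp (4 * np p ^ (-(3 / 2) : ℝ))
      linarith
    refine (Finset.prod_le_prod (fun p _ => ?_) h4).trans ?_
    · exact add_nonneg (mul_nonneg (h2 p) (h3 p _))
        (add_nonneg zero_le_one (mul_nonneg (h2 p) (h3 p _)))
    · rw [← Real.exp_sum]
      refine Real.exp_le_exp.2 ?_
      rw [← Finset.mul_sum]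
      refine mul_le_mul_of_nonneg_left ?_ (by norm_num)
      exact np_summable.sum_le_tsum X (fun p _ => h3 p _)

end Pool.Agent.H61.HH
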