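import Pool.Agent.H33.HH.TD
import Pool.Agent.H24.Cls.Exist

/-!
# Row IV1 of the board hha: the conductor of an invariant character
-/

set_option autoImplicit false

open NumberField

namespace Pool.Agent.H61.HH

open Pool.Agent.H33.HH Pool.Agent.H28.RC Pool.Agent.H37.CV
open Pool.Agent.H24.Cls (Quad exists_quad)

section Conj

variable {R : Type*} [CommRing R] (Q : Quad R)

/-- the conjugation of a quadratic order -/
noncomputable def cj (x : R) : R :=
  ((Q.gen x).choose : R) + ((Q.gen x).choose_spec.choose : R) * (Q.t - Q.w)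

theorem cj_eq (a b : ℤ) : cj Q (a + b * Q.w) = a + b * (Q.t - Q.w) := by
  have h := (Q.gen (a + b * Q.w)).choose_spec.choose_spec
  obtain ⟨h1, h2⟩ := Q.ext h
  exact congrArg₂ (fun m n : ℤ => (m : R) + (n : R) * (Q.t - Q.w)) h1.symm h2.symm

theorem cj_mul (x y : R) : cj Q (x * y) = cj Q x * cj Q y := by
  obtain ⟨a, b, rfl⟩ := Q.gen x
  obtain ⟨c, d, rfl⟩ := Q.gen y
  have h : ((a : R) + b * Q.w) * (c + d * Q.w) =
      ((a * c - b * d * Q.n : ℤ) : R) + ((a * d + b * c + b * d * Q.t : ℤ) : R) * Q.w := by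
    push_cast
    linear_combination (b : R) * d * Q.eqn
  rw [h, cj_eq, cj_eq, cj_eq]
  push_cast
  linear_combination -(b : R) * d * Q.eqn

theorem cj_add (x y : R) : cj Q (x + y) = cj Q x + cj Q y := by
  obtain ⟨a, b, rfl⟩ := Q.gen x
  obtain ⟨c, d, rfl⟩ := Q.gen y
  have h : ((a : R) + b * Q.w) + (c + d * Q.w) =
      ((a + c : ℤ) : R) + ((b + d : ℤ) : R) * Q.w := by
    push_cast
    ring
  rw [h, cj_eq, cj_eq, cj_eq]
  push_cast
  ring

theorem cj_cj (x : R) : cj Q (cj Q x) = x := by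
  obtain ⟨a, b, rfl⟩ := Q.gen x
  rw [cj_eq]
  have h : (a : R) + b * (Q.t - Q.w) = ((a + b * Q.t : ℤ) : R) + ((-b : ℤ) : R) * Q.w := by
    push_cast
    ring
  rw [h, cj_eq]
  push_cast
  ring

/-- the conjugation as an automorphism -/
noncomputable def cje : R ≃+* R where
  toFun := cj Q
  invFun := cj Q
  left_inv := cj_cj Q
  right_inv := cj_cj Q
  map_mul' := cj_mul Q
  map_add' := cj_add Q

theorem cje_apply (a b : ℤ) : cje Q (a + b * Q.w) = a + b * (Q.t - Q.w) := cj_eq Q a b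

end Conj

theorem pf_IV1 : T_IV1 := by
  intro K _ _ h2
  obtain ⟨Q, -⟩ := exists_quad K h2
  refine ⟨Q.D.natAbs, ?_, ?_⟩
  · have h := Q.not_square 0
    rw [Nat.one_le_iff_ne_zero]
    intro h0
    exact h (by rw [Int.natAbs_eq_zero.1 h0]; norm_num)
  intro χ hχ p hp hpD hpf
  have hinv : ∀ (σ : 𝓞 K ≃+* 𝓞 K) (I : Ideal (𝓞 K)), χ.ψ (I.map σ) = χ.ψ I := by
    intro σ I
    by_contra h
    exact hχ ⟨σ, I, h⟩
  obtain ⟨P, hPm, hPu, hPf⟩ := Ideal.exists_isMaximal_dvd_of_dvd_absNorm' hp χ.f hpf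
  have hPle : χ.f ≤ P := Ideal.le_of_dvd hPf
  have hmem : ∀ m : ℤ, (m : 𝓞 K) ∈ P → (p : ℤ) ∣ m := by
    intro m hm
    have h1 : m ∈ P.under ℤ := by
      show algebraMap ℤ (𝓞 K) m ∈ P
      simpa using hm
    rw [hPu] at h1
    exact Ideal.mem_span_singleton.1 h1
  have hpP : (p : 𝓞 K) ∈ P := by
    have h1 : (p : ℤ) ∈ P.under ℤ := by
      rw [hPu]
      exact Ideal.mem_span_singleton_self _
    have h3 : algebraMap ℤ (𝓞 K) (p : ℤ) ∈ P := h1
    simpa using h3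
  have hr : Module.finrank ℤ (𝓞 K) = 2 := by rw [RingOfIntegers.rank, h2]
  have hnp : Ideal.absNorm (Ideal.span {(p : 𝓞 K)}) = p ^ 2 := by
    rw [Ideal.absNorm_span_natCast, hr]
  -- norms of the maximal ideals which contain `p`
  have hnorm : ∀ P' : Ideal (𝓞 K), P' ≠ ⊤ → (p : 𝓞 K) ∈ P' →
      Ideal.absNorm P' = p ∨ Ideal.absNorm P' = p ^ 2 := by
    intro P' hP' hpP'
    have h1 : Ideal.absNorm P' ∣ p ^ 2 := by
      rw [← hnp]
      exact Ideal.absNorm_dvd_absNorm_of_le ((Ideal.span_singleton_le_iff_mem _).2 hpP')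
    obtain ⟨k, hk, hk'⟩ := (Nat.dvd_prime_pow hp).1 h1
    have h3 : k ≠ 0 := by
      rintro rfl
      rw [pow_zero, Ideal.absNorm_eq_one_iff] at hk'
      exact hP' hk'
    have h4 : k = 1 ∨ k = 2 := by omega
    rcases h4 with rfl | rfl
    · left; rw [hk', pow_one]
    · right; exact hk'
  rcases hnorm P hPm.ne_top hpP with hP1 | hP2
  swap
  · rw [← hP2]
    exact Ideal.absNorm_dvd_absNorm_of_le hPle
  set σ : 𝓞 K ≃+* 𝓞 K := cje Q with hσ
  have hσw : ∀ a b : ℤ, σ ((a : 𝓞 K) + b * Q.w) = a + b * (Q.t - Q.w) := cje_apply Q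
  set P' : Ideal (𝓞 K) := P.map σ with hP'
  have hP'm : P'.IsMaximal := Ideal.map_isMaximal_of_equiv σ
  have hpP' : (p : 𝓞 K) ∈ P' := by
    have h1 : σ (p : 𝓞 K) ∈ P' := Ideal.mem_map_of_mem _ hpP
    rwa [map_natCast] at h1
  have hpne : (p : 𝓞 K) ≠ 0 := Nat.cast_ne_zero.2 hp.ne_zero
  have hf' : χ.f ≤ P' := by
    have h1 : χ.ψ P = 0 := χ.eq_zero P (by
      rw [sup_eq_left.2 hPle]
      exact hPm.ne_top)
    have h3 : χ.ψ P' = 0 := by rw [hP', hinv, h1]
    have h4 : P' ⊔ χ.f ≠ ⊤ := by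
      intro h5
      have h6 := χ.norm_one P' (fun h0 => hpne (by rw [h0] at hpP'; simpa using hpP')) h5
      rw [h3, norm_zero] at h6
      exact zero_ne_one h6
    have h5 : P' = P' ⊔ χ.f := hP'm.eq_of_le h4 le_sup_left
    rw [h5]
    exact le_sup_right
  by_cases hPP : P' = P
  · exfalso
    have := Fact.mk hp
    have hcard : Nat.card (𝓞 K ⧸ P) = p := hP1
    have hone : (1 : 𝓞 K ⧸ P) ≠ 0 := by
      have := hPm
      have : Nontrivial (𝓞 K ⧸ P) := Ideal.Quotient.nontrivial_iff.2 hPm.ne_top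
      exact one_ne_zero
    have hz : (Ideal.Quotient.mk P Q.w) ∈ AddSubgroup.zmultiples (1 : 𝓞 K ⧸ P) :=
      mem_zmultiples_of_prime_card hcard hone
    obtain ⟨b, hb⟩ := AddSubgroup.mem_zmultiples_iff.1 hz
    have hwb : Q.w - (b : 𝓞 K) ∈ P := by
      rw [← Ideal.Quotient.eq, ← hb]
      simp
    have hwb' : (Q.t : 𝓞 K) - Q.w - b ∈ P := by
      have h1 : σ (Q.w - (b : 𝓞 K)) ∈ P' := Ideal.mem_map_of_mem _ hwb
      rw [hPP] at h1
      have h3 := hσw (-b) 1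
      have h4 : ((-b : ℤ) : 𝓞 K) + ((1 : ℤ) : 𝓞 K) * Q.w = Q.w - b := by push_cast; ring
      rw [h4] at h3
      rw [h3] at h1
      have h5 : ((-b : ℤ) : 𝓞 K) + ((1 : ℤ) : 𝓞 K) * (Q.t - Q.w) = Q.t - Q.w - b := by
        push_cast; ring
      rwa [h5] at h1
    have h1 : (p : ℤ) ∣ Q.t - 2 * b := by
      apply hmem
      have h3 := P.add_mem hwb hwb'
      have h4 : ((Q.t - 2 * b : ℤ) : 𝓞 K) = Q.w - b + (Q.t - Q.w - b) := by push_cast; ring
      rw [h4]
      exact h3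
    have h3 : (p : ℤ) ∣ b ^ 2 - Q.t * b + Q.n := by
      apply hmem
      have h4 := P.mul_mem_left (Q.t - Q.w - b) hwb
      have h5 : ((b ^ 2 - Q.t * b + Q.n : ℤ) : 𝓞 K) = (Q.t - Q.w - b) * (Q.w - b) := by
        push_cast
        linear_combination Q.eqn
      rw [h5]
      exact h4
    have h4 : (p : ℤ) ∣ Q.D := by
      have h5 : Q.D = (Q.t - 2 * b) * (Q.t - 2 * b) - 4 * (b ^ 2 - Q.t * b + Q.n) := by
        unfold Quad.D
        ring
      rw [h5]
      exact dvd_sub (dvd_mul_of_dvd_left h1 _) (dvd_mul_of_dvd_right h3 _)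
    exact hpD (Int.natCast_dvd.1 h4)
  · have hcop : IsCoprime P P' := by
      rw [Ideal.isCoprime_iff_sup_eq]
      exact hPm.coprime_of_ne hP'm fun h => hPP h.symm
    have h1 : χ.f ≤ P * P' := by
      rw [Ideal.mul_eq_inf_of_coprime (Ideal.isCoprime_iff_sup_eq.1 hcop)]
      exact le_inf hPle hf'
    have h3 : Ideal.absNorm (P * P') ∣ Ideal.absNorm χ.f := Ideal.absNorm_dvd_absNorm_of_le h1
    rw [map_mul, hP1] at h3
    have h4 : p ∣ Ideal.absNorm P' := by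
      rcases hnorm P' hP'm.ne_top hpP' with h5 | h5
      · rw [h5]
      · rw [h5]
        exact dvd_pow_self p two_ne_zero
    refine dvd_trans ?_ h3
    rw [sq]
    exact mul_dvd_mul_left p h4

end Pool.Agent.H61.HH
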