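import Pool.Agent.H33.HH.TD

/-!
# Row PRB of the board hha: the number of the characters of conductor `f`
-/

set_option autoImplicit false

open NumberField

namespace Pool.Agent.H61.HH

open Pool.Agent.H33.HH Pool.Agent.H28.RC Pool.Agent.H37.CV

theorem sg_ne {K : Type} [Field K] [NumberField K] (S : Finset (RP K)) (x : K) :
    sg K S x ≠ 0 := by
  unfold sg
  rw [Finset.prod_ne_zero_iff]
  intro v _
  split_ifs <;> norm_num

theorem pf_PRB (h1 : T_PR1) (h2 : T_PR2) (h3 : T_PR3) : T_PRB := by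
  classical
  intro K _ _ f η j hf hj hη
  have hfin : Finite (𝓞 K ⧸ f) := (Ideal.absNorm_ne_zero_iff f).1
    (fun h => hf (Ideal.absNorm_eq_zero_iff.1 h))
  let G := (𝓞 K ⧸ f)ˣ
  have hG : Finite G := inferInstance
  let g : G := Units.map (Ideal.Quotient.mk f : 𝓞 K →+* 𝓞 K ⧸ f) η
  have hg : ∀ i, 0 < i → i < j → g ^ i ≠ 1 := by
    intro i hi hij h
    refine hη i hi hij ?_
    rw [← Ideal.Quotient.eq]
    have h4 : ((g ^ i : G) : 𝓞 K ⧸ f) = ((1 : G) : 𝓞 K ⧸ f) := by rw [h]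
    rw [Units.val_pow_eq_pow_val, Units.val_one] at h4
    have h5 : (g : 𝓞 K ⧸ f) = Ideal.Quotient.mk f (η : 𝓞 K) := rfl
    rw [h5] at h4
    rw [Units.val_pow_eq_pow_val, map_pow, map_one]
    exact h4
  let z : Finset (RP K) → ℂˣ := fun S => (Units.mk0 (sg K S ((η : 𝓞 K) : K)) (sg_ne S _))⁻¹
  have hL := fun S => h3 G g (z S) j hj hg
  let A : Finset (RP K) → (G →* ℂˣ) → Set (RCC K) := fun S l =>
    {χ : RCC K | χ.f = f ∧ χ.S = S ∧ ∀ (a : 𝓞 K) (u : (𝓞 K ⧸ f)ˣ), a ≠ 0 →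
      (u : 𝓞 K ⧸ f) = Ideal.Quotient.mk f a →
      χ.ψ (Ideal.span {a}) = sg K S a * ((l u : ℂˣ) : ℂ)}
  have hA : ∀ S l, (A S l).Finite ∧ (A S l).ncard ≤ classNumber K := fun S l => h2 K f S l hf
  let F : Finset (RP K) → Finset (RCC K) := fun S =>
    (hL S).1.toFinset.biUnion fun l => (hA S l).1.toFinset
  have hsub : Pr K f ⊆ ((Finset.univ.biUnion F : Finset (RCC K)) : Set (RCC K)) := by
    intro χ hχ
    have hχf : χ.f = f := hχ
    have hex : ∃ l : G →* ℂˣ, ∀ (a : 𝓞 K) (u : (𝓞 K ⧸ f)ˣ), a ≠ 0 →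
        (u : 𝓞 K ⧸ f) = Ideal.Quotient.mk f a →
        χ.ψ (Ideal.span {a}) = sg K χ.S a * ((l u : ℂˣ) : ℂ) := by
      subst hχf
      exact h1 K χ
    obtain ⟨l, hl⟩ := hex
    have hlg : l g = z χ.S := by
      have h4 := hl (η : 𝓞 K) g η.ne_zero rfl
      rw [Ideal.span_singleton_eq_top.2 η.isUnit, χ.map_one] at h4
      ext
      show ((l g : ℂˣ) : ℂ) = ((z χ.S : ℂˣ) : ℂ)
      have h5 : ((z χ.S : ℂˣ) : ℂ) = (sg K χ.S ((η : 𝓞 K) : K))⁻¹ := by
        simp [z]
      rw [h5]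
      exact eq_inv_of_mul_eq_one_right h4.symm
    rw [Finset.mem_coe, Finset.mem_biUnion]
    refine ⟨χ.S, Finset.mem_univ _, ?_⟩
    rw [Finset.mem_biUnion]
    refine ⟨l, (Set.Finite.mem_toFinset _).2 hlg, (Set.Finite.mem_toFinset _).2 ?_⟩
    exact ⟨hχf, rfl, hl⟩
  refine ⟨(Finset.finite_toSet _).subset hsub, ?_⟩
  have hc1 : (Pr K f).ncard ≤ (Finset.univ.biUnion F).card := by
    rw [← Set.ncard_coe_finset]
    exact Set.ncard_le_ncard hsub (Finset.finite_toSet _)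
  have hc2 : ∀ S, j * (F S).card ≤ Nat.card G * classNumber K := by
    intro S
    have h4 : (F S).card ≤ (hL S).1.toFinset.card * classNumber K := by
      refine Finset.card_biUnion_le_card_mul _ _ _ fun l _ => ?_
      rw [← Set.ncard_eq_toFinset_card _ (hA S l).1]
      exact (hA S l).2
    have h5 : j * (hL S).1.toFinset.card ≤ Nat.card G := by
      rw [← Set.ncard_eq_toFinset_card _ (hL S).1]
      exact (hL S).2
    calc j * (F S).card ≤ j * ((hL S).1.toFinset.card * classNumber K) :=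
          Nat.mul_le_mul_left _ h4
      _ = (j * (hL S).1.toFinset.card) * classNumber K := by ring
      _ ≤ Nat.card G * classNumber K := Nat.mul_le_mul_right _ h5
  have hGN : Nat.card G ≤ Ideal.absNorm f := by
    have h4 : Nat.card G ≤ Nat.card (𝓞 K ⧸ f) :=
      Nat.card_le_card_of_injective (fun u : G => (u : 𝓞 K ⧸ f)) Units.val_injective
    exact h4
  have hcS : Fintype.card (Finset (RP K)) = 2 ^ InfinitePlace.nrRealPlaces K := by
    rw [Fintype.card_finset]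
  calc j * (Pr K f).ncard ≤ j * ∑ S, (F S).card :=
        Nat.mul_le_mul_left _ (hc1.trans Finset.card_biUnion_le)
    _ = ∑ S, j * (F S).card := Finset.mul_sum _ _ _
    _ ≤ ∑ _S : Finset (RP K), Nat.card G * classNumber K :=
        Finset.sum_le_sum fun S _ => hc2 S
    _ = 2 ^ InfinitePlace.nrRealPlaces K * (Nat.card G * classNumber K) := by
        rw [Finset.sum_const, Finset.card_univ, hcS, smul_eq_mul]
    _ ≤ 2 ^ InfinitePlace.nrRealPlaces K * (Ideal.absNorm f * classNumber K) :=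
        Nat.mul_le_mul_left _ (Nat.mul_le_mul_right _ hGN)
    _ = 2 ^ InfinitePlace.nrRealPlaces K * classNumber K * Ideal.absNorm f := by ring

end Pool.Agent.H61.HH
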